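import Mathlib

open MeasureTheory ProbabilityTheory Set

namespace Pool.Agent.H.MP_eff680_pr.helper91

/-- The standard Gaussian measure on `ℝ^n`. -/
noncomputable abbrev gaussian (n : ℕ) : Measure (EuclideanSpace ℝ (Fin n)) :=
  stdGaussian (EuclideanSpace ℝ (Fin n))

/-- `Pr[x ∈ A, y ∈ B]` where `x, z` are independent standard Gaussian vectors of `ℝ^n` and
`y = ρ x + √(1 - ρ²) z`. -/
noncomputable def pairProb {n : ℕ} (ρ : ℝ) (A B : Set (EuclideanSpace ℝ (Fin n))) : ℝ :=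
  ((gaussian n).prod (gaussian n)).real {p | p.1 ∈ A ∧ ρ • p.1 + √(1 - ρ ^ 2) • p.2 ∈ B}

/-- `m_n(ρ, μ, ν)`: the infimum of `Pr[x ∈ A, y ∈ B]` over Borel sets with `γ_n(A) = μ`,
`γ_n(B) = ν`, `A = -A`. -/
noncomputable def minProb (n : ℕ) (ρ μ ν : ℝ) : ℝ :=
  sInf {t | ∃ A B : Set (EuclideanSpace ℝ (Fin n)), MeasurableSet A ∧ MeasurableSet B ∧ -A = A ∧
    (gaussian n).real A = μ ∧ (gaussian n).real B = ν ∧ pairProb ρ A B = t}

end Pool.Agent.H.MP_eff680_pr.helper91
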