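import Mathlib
import Pool.Agent.H.MP_eff680_pr.helper91.Defs

open MeasureTheory ProbabilityTheory Set Real Filter
open scoped RealInnerProductSpace ENNReal NNReal Topology

set_option linter.unusedSectionVars false

namespace Pool.Agent.H.MP_eff680_pr.helper91


section OneDim

lemma g1_upper (u : ℝ) (hu : 0 ≤ u) :
    (gaussianReal 0 1).real {t | u ≤ t} ≤ rexp (-u ^ 2 / 2) := by
  have h := measure_ge_le_exp_mul_mgf (μ := gaussianReal 0 1) (X := id) (t := u) u hu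
    (by simpa using integrable_exp_mul_gaussianReal (μ := 0) (v := 1) u)
  rw [mgf_id_gaussianReal, ← Real.exp_add] at h
  refine h.trans (le_of_eq ?_)
  congr 1
  simp only [NNReal.coe_one]
  ring

lemma g1_neg (S : Set ℝ) (hS : MeasurableSet S) :
    (gaussianReal 0 1).real (-S) = (gaussianReal 0 1).real S := by
  have h := gaussianReal_map_neg (μ := 0) (v := 1)
  rw [neg_zero] at h
  have h2 := congrArg (fun m : Measure ℝ => m S) h
  rw [Measure.map_apply measurable_neg hS] at h2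
  rw [measureReal_def, measureReal_def, ← h2]
  rfl

lemma g1_lower (u : ℝ) (hu : 0 ≤ u) :
    (gaussianReal 0 1).real {t | t ≤ -u} ≤ rexp (-u ^ 2 / 2) := by
  have e : {t : ℝ | t ≤ -u} = -{t : ℝ | u ≤ t} := by
    ext t; simp only [mem_ofPred_eq, Set.mem_neg]; constructor <;> intro h <;> linarith
  rw [e, g1_neg {t : ℝ | u ≤ t} (measurableSet_le measurable_const measurable_id)]
  exact g1_upper u hu

lemma g1_Icc_ge (u δ : ℝ) (hu : 0 ≤ u) (hδ : 0 < δ) :
    δ / √(2 * π) * rexp (-(u + δ) ^ 2 / 2) ≤ (gaussianReal 0 1).real (Icc u (u + δ)) := by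
  rw [measureReal_def, gaussianReal_apply_eq_integral _ one_ne_zero,
    ENNReal.toReal_ofReal (integral_nonneg fun x => gaussianPDFReal_nonneg _ _ _)]
  have h1 : ∫ _ in Icc u (u + δ), (√(2 * π))⁻¹ * rexp (-(u + δ) ^ 2 / 2)
      = δ / √(2 * π) * rexp (-(u + δ) ^ 2 / 2) := by
    rw [setIntegral_const, measureReal_def, Real.volume_Icc, add_sub_cancel_left,
      ENNReal.toReal_ofReal hδ.le, smul_eq_mul]
    ring
  rw [← h1]
  apply setIntegral_mono_on
  · exact integrableOn_const (by simp)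
  · exact (integrable_gaussianPDFReal 0 1).integrableOn
  · exact measurableSet_Icc
  · intro x hx
    rw [gaussianPDFReal]
    simp only [NNReal.coe_one, mul_one, sub_zero]
    apply mul_le_mul_of_nonneg_left _ (by positivity)
    apply Real.exp_le_exp.2
    have h2 : x ^ 2 ≤ (u + δ) ^ 2 := by
      have := hx.1; have := hx.2
      nlinarith
    linarith

/-- the function `b ↦ P(|N| ≤ b)` -/
lemma g1_continuous : Continuous (fun b : ℝ => (gaussianReal 0 1).real (Icc (-b) b)) := by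
  have e : ∀ b : ℝ, 0 ≤ b → (gaussianReal 0 1).real (Icc (-b) b)
      = ∫ x in (-b)..b, gaussianPDFReal 0 1 x := by
    intro b hb
    rw [measureReal_def, gaussianReal_apply_eq_integral _ one_ne_zero,
      ENNReal.toReal_ofReal (integral_nonneg fun x => gaussianPDFReal_nonneg _ _ _),
      intervalIntegral.integral_of_le (by linarith), integral_Icc_eq_integral_Ioc]
  have e2 : (fun b : ℝ => (gaussianReal 0 1).real (Icc (-b) b))
      = fun b => ∫ x in (-(max b 0))..(max b 0), gaussianPDFReal 0 1 x := by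
    ext b
    rw [← e _ (le_max_right _ _)]
    rcases le_total 0 b with hb | hb
    · rw [max_eq_left hb]
    · rw [max_eq_right hb, neg_zero, Icc_self]
      have h0 : (gaussianReal 0 1).real {(0 : ℝ)} = 0 := by
        have := nullSingletonClass_gaussianReal (μ := 0) (v := 1) one_ne_zero
        rw [measureReal_def, measure_singleton]; rfl
      rcases eq_or_lt_of_le hb with h | h
      · rw [h, neg_zero, Icc_self]
      · rw [Icc_eq_empty (by linarith), measureReal_empty, h0]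
  rw [e2]
  have hint : ∀ a b : ℝ, IntervalIntegrable (gaussianPDFReal 0 1) volume a b := fun a b =>
    (integrable_gaussianPDFReal 0 1).intervalIntegrable
  have hc : Continuous (fun b : ℝ => ∫ x in (0 : ℝ)..b, gaussianPDFReal 0 1 x) :=
    intervalIntegral.continuous_primitive hint 0
  have e3 : (fun b : ℝ => ∫ x in (-(max b 0))..(max b 0), gaussianPDFReal 0 1 x)
      = fun b => (∫ x in (0 : ℝ)..(max b 0), gaussianPDFReal 0 1 x)
        - ∫ x in (0 : ℝ)..(-(max b 0)), gaussianPDFReal 0 1 x := by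
    ext b
    rw [intervalIntegral.integral_interval_sub_left (hint _ _) (hint _ _)]
  rw [e3]
  have hm : Continuous (fun b : ℝ => max b 0) := continuous_id.max continuous_const
  exact (hc.comp hm).sub (hc.comp hm.neg)

lemma g1_compl (b : ℝ) :
    (gaussianReal 0 1).real {t | b ≤ |t|} = 1 - (gaussianReal 0 1).real (Icc (-b) b) := by
  have h1 : {t : ℝ | b ≤ |t|} = (Ioo (-b) b)ᶜ := by
    ext t
    simp only [mem_ofPred_eq, mem_compl_iff, mem_Ioo, ← abs_lt, not_lt]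
  rw [h1, probReal_compl_eq_one_sub measurableSet_Ioo]
  congr 1
  have := nullSingletonClass_gaussianReal (μ := 0) (v := 1) one_ne_zero
  exact measureReal_congr Ioo_ae_eq_Icc

lemma g1_quantile (p : ℝ) (hp : 0 < p) (hp1 : p < 1) :
    ∃ b : ℝ, 0 < b ∧ (gaussianReal 0 1).real (Icc (-b) b) = p := by
  have hup : ∃ b : ℝ, p ≤ (gaussianReal 0 1).real (Icc (-b) b) := by
    have ht : Tendsto (fun u : ℝ => rexp (-u ^ 2 / 2)) atTop (𝓝 0) := by
      apply Real.tendsto_exp_atBot.comp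
      have : Tendsto (fun M : ℝ => (-(1 / 2)) * M ^ 2) atTop atBot :=
        (tendsto_pow_atTop (two_ne_zero)).const_mul_atTop_of_neg (by norm_num)
      refine this.congr fun M => by ring
    obtain ⟨u, hu, hu0⟩ := ((ht.eventually_le_const
      (show (0 : ℝ) < (1 - p) / 2 by linarith)).and (eventually_ge_atTop 0)).exists
    refine ⟨u, ?_⟩
    have h1 := g1_upper u hu0
    have h2 := g1_lower u hu0
    have h3 := g1_compl u
    have h4 : {t : ℝ | u ≤ |t|} ⊆ {t | u ≤ t} ∪ {t | t ≤ -u} := by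
      intro t ht
      have ht : u ≤ |t| := ht
      rcases le_abs.1 ht with h | h
      · left; exact h
      · right; change t ≤ -u; linarith
    have h5 := (measureReal_mono (μ := gaussianReal 0 1) h4).trans (measureReal_union_le _ _)
    linarith
  obtain ⟨u, hu⟩ := hup
  have hlow : (gaussianReal 0 1).real (Icc (-0) (0:ℝ)) ≤ p := by
    have := nullSingletonClass_gaussianReal (μ := 0) (v := 1) one_ne_zero
    rw [neg_zero, Icc_self, measureReal_def, measure_singleton]; simpa using hp.le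
  obtain ⟨b, hb⟩ := mem_range_of_exists_le_of_exists_ge g1_continuous ⟨0, hlow⟩ ⟨u, hu⟩
  refine ⟨b, ?_, hb⟩
  by_contra hneg
  have hneg := not_lt.1 hneg
  have h0 : (gaussianReal 0 1).real (Icc (-b) b) ≤ 0 := by
    have := nullSingletonClass_gaussianReal (μ := 0) (v := 1) one_ne_zero
    have hsub : Icc (-b) b ⊆ {(0 : ℝ)} := by
      intro t ht
      have := ht.1; have := ht.2
      rw [mem_singleton_iff]; linarith
    refine (measureReal_mono hsub).trans ?_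
    rw [measureReal_def, measure_singleton]; simp
  simp only at hb
  linarith

lemma g1_mono {a b : ℝ} (h : a ≤ b) :
    (gaussianReal 0 1).real (Icc (-a) a) ≤ (gaussianReal 0 1).real (Icc (-b) b) :=
  measureReal_mono (Icc_subset_Icc (by linarith) h)

lemma g1_strict {a b : ℝ} (ha : 0 ≤ a) (h : a < b) :
    (gaussianReal 0 1).real (Icc (-a) a) < (gaussianReal 0 1).real (Icc (-b) b) := by
  have h1 := g1_Icc_ge ((a + b) / 2) ((b - a) / 2) (by linarith) (by linarith)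
  have h2 : (0 : ℝ) < (b - a) / 2 / √(2 * π) * rexp (-((a + b) / 2 + (b - a) / 2) ^ 2 / 2) := by
    have : 0 < b - a := by linarith
    positivity
  have h3 : Icc (-a) a ∪ Icc ((a + b) / 2) ((a + b) / 2 + (b - a) / 2) ⊆ Icc (-b) b := by
    rintro t (ht | ht)
    · exact ⟨by linarith [ht.1], by linarith [ht.2]⟩
    · exact ⟨by linarith [ht.1], by linarith [ht.2]⟩
  have h4 : Disjoint (Icc (-a) a) (Icc ((a + b) / 2) ((a + b) / 2 + (b - a) / 2)) := by
    rw [Set.disjoint_left]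
    intro t ht ht2
    have := ht.2; have := ht2.1
    linarith
  have h5 := measureReal_mono (μ := gaussianReal 0 1) h3
  rw [measureReal_union h4 measurableSet_Icc] at h5
  linarith

/-- lower bound for the two-sided quantile -/
lemma quantile_ge (δ : ℝ) (hδ : 0 < δ) :
    ∀ᶠ L : ℝ in atTop, ∀ b : ℝ, (gaussianReal 0 1).real {t | b ≤ |t|} = rexp (-L ^ 2 / 2) →
      L - δ ≤ b := by
  have ht : Tendsto (fun L : ℝ => δ / 2 * L - δ ^ 2 / 8) atTop atTop := by
    apply tendsto_atTop_add_const_right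
    exact tendsto_id.const_mul_atTop (by positivity)
  have ht2 : Tendsto (fun L : ℝ => δ / 2 / √(2 * π) * rexp (δ / 2 * L - δ ^ 2 / 8))
      atTop atTop :=
    (Real.tendsto_exp_atTop.comp ht).const_mul_atTop (by positivity)
  filter_upwards [ht2.eventually_gt_atTop 1, eventually_ge_atTop δ] with L hL hLδ b hb
  by_contra hcon
  have hcon := not_le.1 hcon
  have h1 := g1_Icc_ge (L - δ) (δ / 2) (by linarith) (by linarith)
  have h2 : Icc (L - δ) (L - δ + δ / 2) ⊆ {t : ℝ | b ≤ |t|} := by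
    intro t ht
    change b ≤ |t|
    have := le_abs_self t
    linarith [ht.1]
  have h3 := measureReal_mono (μ := gaussianReal 0 1) h2
  rw [hb] at h3
  have h4 : δ / 2 / √(2 * π) * rexp (-(L - δ + δ / 2) ^ 2 / 2)
      = rexp (-L ^ 2 / 2) * (δ / 2 / √(2 * π) * rexp (δ / 2 * L - δ ^ 2 / 8)) := by
    rw [show rexp (-L ^ 2 / 2) * (δ / 2 / √(2 * π) * rexp (δ / 2 * L - δ ^ 2 / 8))
      = δ / 2 / √(2 * π) * (rexp (-L ^ 2 / 2) * rexp (δ / 2 * L - δ ^ 2 / 8)) by ring,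
      ← Real.exp_add]
    congr 2
    ring
  have h5 := h1.trans h3
  rw [h4] at h5
  have h6 := Real.exp_pos (-L ^ 2 / 2)
  nlinarith

end OneDim

section General

variable {E : Type*} [NormedAddCommGroup E] [InnerProductSpace ℝ E] [FiniteDimensional ℝ E]
  [MeasurableSpace E] [BorelSpace E]

/-- normalising constant of the standard Gaussian density -/
noncomputable def cst (E : Type*) [NormedAddCommGroup E] [InnerProductSpace ℝ E] : ℝ :=
  (2 * π) ^ (-(Module.finrank ℝ E / 2 : ℝ))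

lemma cst_pos : 0 < cst E := by unfold cst; positivity

lemma integrable_dens {b : ℝ} (hb : 0 < b) : Integrable (fun x : E => rexp (-b * ‖x‖ ^ 2)) := by
  have h := GaussianFourier.integrable_cexp_neg_mul_sq_norm_add (V := E) (b := (b : ℂ))
    (by simpa using hb) 0 0
  have h2 := h.norm
  refine h2.congr (ae_of_all _ fun x => ?_)
  simp only [zero_mul, add_zero, Complex.norm_exp]
  congr 1
  have : (-(b : ℂ) * (‖x‖ : ℂ) ^ 2) = ((-b * ‖x‖ ^ 2 : ℝ) : ℂ) := by push_cast; ring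
  rw [this, Complex.ofReal_re]

lemma integral_dens {b : ℝ} (hb : 0 < b) :
    ∫ x : E, rexp (-b * ‖x‖ ^ 2) = (π / b) ^ (Module.finrank ℝ E / 2 : ℝ) :=
  GaussianFourier.integral_rexp_neg_mul_sq_norm hb

lemma cst_mul : cst E * (π / (1 / 2)) ^ (Module.finrank ℝ E / 2 : ℝ) = 1 := by
  unfold cst
  rw [show π / (1 / 2) = 2 * π by ring, ← Real.rpow_add (by positivity)]
  simp

/-- The standard Gaussian measure has the expected density. -/
lemma stdGaussian_eq_withDensity :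
    stdGaussian E = volume.withDensity
      (fun x : E => ENNReal.ofReal (cst E * rexp (-(1 / 2) * ‖x‖ ^ 2))) := by
  have hint : Integrable (fun x : E => cst E * rexp (-(1 / 2) * ‖x‖ ^ 2)) :=
    (integrable_dens (by norm_num)).const_mul _
  have hnn : ∀ x : E, 0 ≤ cst E * rexp (-(1 / 2) * ‖x‖ ^ 2) := fun x =>
    mul_nonneg cst_pos.le (Real.exp_pos _).le
  have : IsFiniteMeasure (volume.withDensity
      (fun x : E => ENNReal.ofReal (cst E * rexp (-(1 / 2) * ‖x‖ ^ 2)))) :=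
    isFiniteMeasure_withDensity_ofReal hint.2
  apply Measure.ext_of_charFun
  ext t
  rw [charFun_stdGaussian, charFun_apply, integral_withDensity_eq_integral_toReal_smul
    (by fun_prop) (ae_of_all _ fun _ => ENNReal.ofReal_lt_top)]
  have h1 : ∀ x : E, (ENNReal.ofReal (cst E * rexp (-(1 / 2) * ‖x‖ ^ 2))).toReal •
      Complex.exp ((⟪x, t⟫ : ℝ) * Complex.I) = (cst E : ℂ) *
      Complex.exp (-((1 / 2 : ℝ) : ℂ) * ‖x‖ ^ 2 + Complex.I * ⟪t, x⟫) := by
    intro x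
    rw [ENNReal.toReal_ofReal (hnn x), Complex.real_smul, real_inner_comm, Complex.exp_add]
    push_cast
    ring_nf
  simp_rw [h1]
  rw [integral_const_mul, GaussianFourier.integral_cexp_neg_mul_sq_norm_add (by simp)]
  have h2 : ((π : ℂ) / ((1 / 2 : ℝ) : ℂ)) ^ (Module.finrank ℝ E / 2 : ℂ)
      = (((π / (1 / 2)) ^ (Module.finrank ℝ E / 2 : ℝ) : ℝ) : ℂ) := by
    rw [Complex.ofReal_cpow (by positivity)]; push_cast; rfl
  rw [h2, ← mul_assoc, ← Complex.ofReal_mul, cst_mul, Complex.ofReal_one, one_mul]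
  congr 1
  rw [Complex.I_sq]; push_cast; ring

/-- rotation of a pair of vectors -/
noncomputable def rotL (E : Type*) [NormedAddCommGroup E] [InnerProductSpace ℝ E] (c s : ℝ) :
    E × E →L[ℝ] E × E :=
  (c • ContinuousLinearMap.fst ℝ E E + s • ContinuousLinearMap.snd ℝ E E).prod
    (s • ContinuousLinearMap.fst ℝ E E - c • ContinuousLinearMap.snd ℝ E E)

lemma rotL_apply (c s : ℝ) (p : E × E) :
    rotL E c s p = (c • p.1 + s • p.2, s • p.1 - c • p.2) := rfl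

lemma dual_par (L M : StrongDual ℝ E) (c s : ℝ) (h : c ^ 2 + s ^ 2 = 1) :
    ‖c • L + s • M‖ ^ 2 + ‖s • L - c • M‖ ^ 2 = ‖L‖ ^ 2 + ‖M‖ ^ 2 := by
  obtain ⟨l, rfl⟩ := (InnerProductSpace.toDual ℝ E).surjective L
  obtain ⟨m, rfl⟩ := (InnerProductSpace.toDual ℝ E).surjective M
  have e1 : c • (InnerProductSpace.toDual ℝ E) l + s • (InnerProductSpace.toDual ℝ E) m
      = (InnerProductSpace.toDual ℝ E) (c • l + s • m) := by simp
  have e2 : s • (InnerProductSpace.toDual ℝ E) l - c • (InnerProductSpace.toDual ℝ E) m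
      = (InnerProductSpace.toDual ℝ E) (s • l - c • m) := by simp
  rw [e1, e2]
  simp only [LinearIsometryEquiv.norm_map]
  rw [@norm_add_sq_real, @norm_sub_sq_real, norm_smul, norm_smul, norm_smul, norm_smul,
    inner_smul_left, inner_smul_right, inner_smul_left, inner_smul_right]
  simp only [mul_pow, Real.norm_eq_abs, sq_abs, conj_trivial]
  linear_combination (‖l‖ ^ 2 + ‖m‖ ^ 2) * h

lemma map_rotL (c s : ℝ) (h : c ^ 2 + s ^ 2 = 1) :
    ((stdGaussian E).prod (stdGaussian E)).map (rotL E c s)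
      = (stdGaussian E).prod (stdGaussian E) := by
  apply Measure.ext_of_charFunDual
  ext L
  rw [charFunDual_map, charFunDual_prod, charFunDual_prod, charFunDual_stdGaussian,
    charFunDual_stdGaussian, charFunDual_stdGaussian, charFunDual_stdGaussian,
    ← Complex.exp_add, ← Complex.exp_add]
  congr 1
  set L1 := L.comp (.inl ℝ E E)
  set L2 := L.comp (.inr ℝ E E)
  have e1 : (L.comp (rotL E c s)).comp (.inl ℝ E E) = c • L1 + s • L2 := by
    ext x
    change L (c • x + s • 0, s • x - c • 0) = c • L (x, 0) + s • L (0, x)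
    rw [← map_smul, ← map_smul, ← map_add]
    simp
  have e2 : (L.comp (rotL E c s)).comp (.inr ℝ E E) = s • L1 - c • L2 := by
    ext x
    change L (c • 0 + s • x, s • 0 - c • x) = s • L (x, 0) - c • L (0, x)
    rw [← map_smul, ← map_smul, ← map_sub]
    simp
  rw [e1, e2]
  have := dual_par L1 L2 c s h
  have h2 : ((‖c • L1 + s • L2‖ : ℂ)) ^ 2 + ((‖s • L1 - c • L2‖ : ℂ)) ^ 2
      = (‖L1‖ : ℂ) ^ 2 + (‖L2‖ : ℂ) ^ 2 := by exact_mod_cast this
  linear_combination (-1 / 2) * h2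


/-- joint probability of a correlated pair -/
noncomputable def jp (ρ : ℝ) (A B : Set E) : ℝ≥0∞ :=
  ((stdGaussian E).prod (stdGaussian E)) {p | p.1 ∈ A ∧ ρ • p.1 + √(1 - ρ ^ 2) • p.2 ∈ B}

lemma jp_eq {ρ : ℝ} (hρ : ρ ^ 2 ≤ 1) {A B : Set E} (hA : MeasurableSet A) (hB : MeasurableSet B) :
    jp ρ A B = ∫⁻ y in B, stdGaussian E {w | ρ • y + √(1 - ρ ^ 2) • w ∈ A} ∂(stdGaussian E) := by
  set s := √(1 - ρ ^ 2) with hs
  have hs2 : ρ ^ 2 + s ^ 2 = 1 := by rw [hs, Real.sq_sqrt (by linarith)]; ring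
  have hm1 : MeasurableSet {q : E × E | q.1 ∈ B ∧ ρ • q.1 + s • q.2 ∈ A} := by
    apply MeasurableSet.inter
    · exact measurable_fst hB
    · have : Measurable (fun q : E × E => ρ • q.1 + s • q.2) := by fun_prop
      exact this hA
  have hpre : {p : E × E | p.1 ∈ A ∧ ρ • p.1 + s • p.2 ∈ B}
      = (rotL E ρ s) ⁻¹' {q : E × E | q.1 ∈ B ∧ ρ • q.1 + s • q.2 ∈ A} := by
    ext p
    simp only [mem_ofPred_eq, mem_preimage, rotL_apply]
    have : ρ • (ρ • p.1 + s • p.2) + s • (s • p.1 - ρ • p.2) = p.1 := by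
      rw [smul_add, smul_sub, smul_smul, smul_smul, smul_smul, smul_smul]
      rw [show ρ * s = s * ρ by ring]
      have h1 : (ρ * ρ) • p.1 + (s * ρ) • p.2 + ((s * s) • p.1 - (s * ρ) • p.2)
          = (ρ ^ 2 + s ^ 2) • p.1 := by rw [add_smul]; simp only [pow_two]; abel
      rw [h1, hs2, one_smul]
    rw [this, and_comm]
  unfold jp
  rw [← hs, hpre, ← Measure.map_apply (rotL E ρ s).continuous.measurable hm1, map_rotL _ _ hs2,
    Measure.prod_apply hm1, ← lintegral_indicator hB]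
  apply lintegral_congr
  intro y
  by_cases hy : y ∈ B
  · rw [indicator_of_mem hy]; congr 1; ext w; simp [hy]
  · rw [indicator_of_notMem hy]
    have : Prod.mk y ⁻¹' {q : E × E | q.1 ∈ B ∧ ρ • q.1 + s • q.2 ∈ A} = ∅ := by
      ext w; simp [hy]
    rw [this, measure_empty]

lemma gauss_le (C : Set E) (hC : MeasurableSet C) :
    stdGaussian E C ≤ ENNReal.ofReal (cst E) * volume C := by
  rw [stdGaussian_eq_withDensity, withDensity_apply _ hC]
  calc ∫⁻ x in C, ENNReal.ofReal (cst E * rexp (-(1 / 2) * ‖x‖ ^ 2))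
      ≤ ∫⁻ x in C, ENNReal.ofReal (cst E) := by
        apply lintegral_mono
        intro x
        apply ENNReal.ofReal_le_ofReal
        have : rexp (-(1 / 2) * ‖x‖ ^ 2) ≤ 1 := by
          apply Real.exp_le_one_iff.2; nlinarith [sq_nonneg ‖x‖]
        nlinarith [cst_pos (E := E)]
    _ = _ := by rw [setLIntegral_const]

lemma gauss_ge (D : Set E) (hD : MeasurableSet D) (K : ℝ) (h : ∀ x ∈ D, ‖x‖ ^ 2 ≤ K) :
    ENNReal.ofReal (rexp (-K / 2)) * (ENNReal.ofReal (cst E) * volume D) ≤ stdGaussian E D := by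
  rw [stdGaussian_eq_withDensity, withDensity_apply _ hD, ← mul_assoc,
    ← ENNReal.ofReal_mul (by positivity), ← setLIntegral_const]
  apply setLIntegral_mono' hD
  intro x hx
  apply ENNReal.ofReal_le_ofReal
  rw [mul_comm]
  apply mul_le_mul_of_nonneg_left _ cst_pos.le
  apply Real.exp_le_exp.2
  have := h x hx
  linarith

lemma vol_preimage_ge (C : Set E) {s : ℝ} (hs : 0 < s) (hs1 : s ≤ 1) (m : E) :
    volume C ≤ volume {w : E | m + s • w ∈ C} := by
  have h1 : {w : E | m + s • w ∈ C} = (fun w => s • w) ⁻¹' ((fun x => m + x) ⁻¹' C) := rfl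
  rw [h1, Measure.addHaar_preimage_smul _ hs.ne', measure_preimage_add]
  have h2 : (1 : ℝ≥0∞) ≤ ENNReal.ofReal |(s ^ Module.finrank ℝ E)⁻¹| := by
    rw [abs_of_pos (by positivity)]
    rw [ENNReal.one_le_ofReal]
    exact (one_le_inv₀ (by positivity)).2 (pow_le_one₀ hs.le hs1)
  calc volume C = 1 * volume C := by rw [one_mul]
    _ ≤ _ := by gcongr

/-- lower bound for the conditional probability -/
lemma cond_ge {ρ s : ℝ} (hs : 0 < s) (hs1 : s ≤ 1) (C : Set E) (hC : MeasurableSet C) (y : E)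
    (K : ℝ) (h : ∀ x ∈ C, ‖x - ρ • y‖ ^ 2 ≤ s ^ 2 * K) :
    ENNReal.ofReal (rexp (-K / 2)) * stdGaussian E C ≤ stdGaussian E {w | ρ • y + s • w ∈ C} := by
  have hm : MeasurableSet {w : E | ρ • y + s • w ∈ C} := by
    have : Measurable (fun w : E => ρ • y + s • w) := by fun_prop
    exact this hC
  refine le_trans ?_ (gauss_ge _ hm K ?_)
  · gcongr
    exact (gauss_le C hC).trans (mul_le_mul' le_rfl (vol_preimage_ge C hs hs1 _))
  · intro w hw
    have := h _ hw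
    rw [add_sub_cancel_left, norm_smul, mul_pow, Real.norm_eq_abs, sq_abs] at this
    exact le_of_mul_le_mul_left this (by positivity)

lemma tail_le {R κ : ℝ} (hκ : 0 < κ) (hκ1 : κ ≤ 1) (hR : 0 ≤ R) :
    stdGaussian E {x | R < ‖x‖}
      ≤ ENNReal.ofReal (κ ^ (-(Module.finrank ℝ E / 2 : ℝ)) * rexp (-(1 - κ) * R ^ 2 / 2)) := by
  have hm : MeasurableSet {x : E | R < ‖x‖} := measurableSet_lt measurable_const measurable_norm
  rw [stdGaussian_eq_withDensity, withDensity_apply _ hm]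
  calc ∫⁻ x in {x : E | R < ‖x‖}, ENNReal.ofReal (cst E * rexp (-(1 / 2) * ‖x‖ ^ 2))
      ≤ ∫⁻ x in {x : E | R < ‖x‖}, ENNReal.ofReal
          (cst E * rexp (-(1 - κ) * R ^ 2 / 2) * rexp (-(κ / 2) * ‖x‖ ^ 2)) := by
        apply setLIntegral_mono' hm
        intro x hx
        apply ENNReal.ofReal_le_ofReal
        rw [mul_assoc, ← Real.exp_add]
        apply mul_le_mul_of_nonneg_left _ cst_pos.le
        apply Real.exp_le_exp.2
        have hx' : R < ‖x‖ := hx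
        have : R ^ 2 ≤ ‖x‖ ^ 2 := by gcongr
        nlinarith
    _ ≤ ∫⁻ x : E, ENNReal.ofReal
          (cst E * rexp (-(1 - κ) * R ^ 2 / 2) * rexp (-(κ / 2) * ‖x‖ ^ 2)) :=
        setLIntegral_le_lintegral _ _
    _ = ENNReal.ofReal (∫ x : E, cst E * rexp (-(1 - κ) * R ^ 2 / 2) *
          rexp (-(κ / 2) * ‖x‖ ^ 2)) := by
        rw [ofReal_integral_eq_lintegral_ofReal]
        · exact (integrable_dens (by positivity)).const_mul _
        · exact ae_of_all _ fun x => mul_nonneg (mul_nonneg cst_pos.le (Real.exp_pos _).le)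
            (Real.exp_pos _).le
    _ = _ := by
        congr 1
        rw [integral_const_mul, integral_dens (by positivity)]
        have h1 : (π / (κ / 2)) = (2 * π) * κ⁻¹ := by field_simp
        rw [h1, Real.mul_rpow (by positivity) (by positivity)]
        have h2 : cst E * (2 * π) ^ (Module.finrank ℝ E / 2 : ℝ) = 1 := by
          unfold cst; rw [← Real.rpow_add (by positivity)]; simp
        rw [Real.inv_rpow hκ.le, ← Real.rpow_neg hκ.le]
        calc cst E * rexp (-(1 - κ) * R ^ 2 / 2) * ((2 * π) ^ (Module.finrank ℝ E / 2 : ℝ)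
            * κ ^ (-(Module.finrank ℝ E / 2 : ℝ)))
            = (cst E * (2 * π) ^ (Module.finrank ℝ E / 2 : ℝ)) *
              (κ ^ (-(Module.finrank ℝ E / 2 : ℝ)) * rexp (-(1 - κ) * R ^ 2 / 2)) := by ring
          _ = _ := by rw [h2, one_mul]

lemma law_inner (θ : E) (hθ : ‖θ‖ = 1) :
    (stdGaussian E).map (fun x => ⟪θ, x⟫) = gaussianReal 0 1 := by
  have h := IsGaussian.map_eq_gaussianReal (μ := stdGaussian E) (innerSL ℝ θ)
  have e : (⇑(innerSL ℝ θ) : E → ℝ) = fun x => ⟪θ, x⟫ := rfl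
  rw [integral_strongDual_stdGaussian, variance_dual_stdGaussian] at h
  rw [← e, h]
  simp [hθ]


lemma map_neg_std : (stdGaussian E).map (fun x => -x) = stdGaussian E := by
  have := stdGaussian_map (E := E) (F := E) (LinearIsometryEquiv.neg ℝ)
  simpa using this

lemma meas_neg_std (A : Set E) (hA : MeasurableSet A) :
    (stdGaussian E).real (-A) = (stdGaussian E).real A := by
  have h := congrArg (fun m : Measure E => m A) (map_neg_std (E := E))
  rw [Measure.map_apply measurable_neg hA] at h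
  rw [measureReal_def, measureReal_def, ← h]
  rfl

lemma measurable_inner_left' (θ : E) : Measurable (fun x : E => ⟪θ, x⟫) := by fun_prop

lemma slab_real (θ : E) (hθ : ‖θ‖ = 1) (S : Set ℝ) (hS : MeasurableSet S) :
    (stdGaussian E).real {x | ⟪θ, x⟫ ∈ S} = (gaussianReal 0 1).real S := by
  rw [measureReal_def, measureReal_def, ← law_inner θ hθ,
    Measure.map_apply (measurable_inner_left' θ) hS]
  rfl

lemma symm_half (θ : E) (hθ : ‖θ‖ = 1) (A : Set E) (hA : MeasurableSet A) (hsym : -A = A)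
    (α : ℝ) :
    ((stdGaussian E).real A - (gaussianReal 0 1).real (Icc (-α) α)) / 2
      ≤ (stdGaussian E).real (A ∩ {x | α ≤ ⟪θ, x⟫}) := by
  have hm1 : MeasurableSet {x : E | α ≤ ⟪θ, x⟫} :=
    measurableSet_le measurable_const (measurable_inner_left' θ)
  have hm2 : MeasurableSet {x : E | ⟪θ, x⟫ ≤ -α} :=
    measurableSet_le (measurable_inner_left' θ) measurable_const
  have e1 : (stdGaussian E).real (A ∩ {x | ⟪θ, x⟫ ≤ -α})
      = (stdGaussian E).real (A ∩ {x | α ≤ ⟪θ, x⟫}) := by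
    rw [← meas_neg_std (A ∩ {x | α ≤ ⟪θ, x⟫}) (hA.inter hm1)]
    congr 1
    ext x
    simp only [mem_inter_iff, mem_ofPred_eq, Set.mem_neg, inner_neg_right]
    have : -x ∈ A ↔ x ∈ A := by
      conv_rhs => rw [← hsym]
      rfl
    rw [this]
    constructor
    · rintro ⟨h1, h2⟩; exact ⟨h1, by linarith⟩
    · rintro ⟨h1, h2⟩; exact ⟨h1, by linarith⟩
  have hsub : A ⊆ {x | ⟪θ, x⟫ ∈ Icc (-α) α} ∪ ((A ∩ {x | α ≤ ⟪θ, x⟫}) ∪
      (A ∩ {x | ⟪θ, x⟫ ≤ -α})) := by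
    intro x hx
    by_cases h1 : α ≤ ⟪θ, x⟫
    · right; left; exact ⟨hx, h1⟩
    · by_cases h2 : ⟪θ, x⟫ ≤ -α
      · right; right; exact ⟨hx, h2⟩
      · left; exact ⟨by linarith, by linarith⟩
  have h3 := measureReal_mono (μ := stdGaussian E) hsub
  have h4 := h3.trans (measureReal_union_le _ _)
  have h5 := measureReal_union_le (μ := stdGaussian E) (A ∩ {x | α ≤ ⟪θ, x⟫})
    (A ∩ {x | ⟪θ, x⟫ ≤ -α})
  rw [slab_real θ hθ _ measurableSet_Icc] at h4
  linarith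

lemma exists_tail (ε : ℝ) (hε : 0 < ε) :
    ∃ M : ℝ, 0 ≤ M ∧ (stdGaussian E).real {x | M < ‖x‖} ≤ ε := by
  set K : ℝ := (1 / 2 : ℝ) ^ (-(Module.finrank ℝ E / 2 : ℝ)) with hK
  have hKpos : 0 < K := by positivity
  have ht : Tendsto (fun M : ℝ => K * rexp (-(1 - 1 / 2) * M ^ 2 / 2)) atTop (𝓝 (K * 0)) := by
    apply Tendsto.const_mul
    apply Real.tendsto_exp_atBot.comp
    have : Tendsto (fun M : ℝ => (-(1 / 4)) * M ^ 2) atTop atBot :=
      (tendsto_pow_atTop (two_ne_zero)).const_mul_atTop_of_neg (by norm_num)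
    refine this.congr fun M => by ring
  rw [mul_zero] at ht
  obtain ⟨M, hM, hM0⟩ := ((ht.eventually_le_const hε).and (eventually_ge_atTop 0)).exists
  refine ⟨M, hM0, ?_⟩
  have := tail_le (E := E) (R := M) (κ := 1 / 2) (by norm_num) (by norm_num) hM0
  exact ENNReal.toReal_le_of_le_ofReal (by positivity) (this.trans (ENNReal.ofReal_le_ofReal hM))

/-- The abstract lower bound. -/
lemma jp_ge {ρ : ℝ} (hρ : 0 < ρ) (hρ1 : ρ < 1) {A B : Set E} (hA : MeasurableSet A)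
    (hB : MeasurableSet B) {α M c R : ℝ} (_hα : 0 ≤ α) (hR : 2 * α ≤ ρ * R) (hc : 0 ≤ c)
    (H : ∀ y : E, ∃ C : Set E, MeasurableSet C ∧ C ⊆ A ∧
      (∀ x ∈ C, ‖x‖ ≤ M ∧ α * ‖y‖ ≤ ⟪x, y⟫) ∧ c ≤ (stdGaussian E).real C) :
    c * rexp (-(M ^ 2 + ρ ^ 2 * R ^ 2 - 2 * ρ * α * R) / (2 * (1 - ρ ^ 2))) *
      (stdGaussian E).real (B ∩ {y : E | ‖y‖ ≤ R}) ≤ (jp ρ A B).toReal := by
  have hs2 : 0 < 1 - ρ ^ 2 := by nlinarith
  set s := √(1 - ρ ^ 2) with hs
  have hs0 : 0 < s := Real.sqrt_pos.2 hs2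
  have hss : s ^ 2 = 1 - ρ ^ 2 := Real.sq_sqrt hs2.le
  have hs1 : s ≤ 1 := by nlinarith
  set k : ℝ := c * rexp (-(M ^ 2 + ρ ^ 2 * R ^ 2 - 2 * ρ * α * R) / (2 * (1 - ρ ^ 2))) with hk
  have hk0 : 0 ≤ k := by positivity
  have hcond : ∀ y ∈ B ∩ {y : E | ‖y‖ ≤ R},
      ENNReal.ofReal k ≤ stdGaussian E {w | ρ • y + s • w ∈ A} := by
    rintro y ⟨_, hy⟩
    have hy : ‖y‖ ≤ R := hy
    obtain ⟨C, hCm, hCA, hC, hcC⟩ := H y
    have h1 := cond_ge (E := E) (ρ := ρ) hs0 hs1 C hCm y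
      ((M ^ 2 + ρ ^ 2 * ‖y‖ ^ 2 - 2 * ρ * α * ‖y‖) / s ^ 2) (by
        intro x hx
        obtain ⟨hx1, hx2⟩ := hC x hx
        rw [mul_div_cancel₀ _ (by positivity), norm_sub_sq_real, norm_smul, mul_pow,
          Real.norm_eq_abs, sq_abs, inner_smul_right]
        have : ‖x‖ ^ 2 ≤ M ^ 2 := by
          have := norm_nonneg x
          nlinarith
        nlinarith)
    have h2 : stdGaussian E {w | ρ • y + s • w ∈ C} ≤ stdGaussian E {w | ρ • y + s • w ∈ A} :=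
      measure_mono fun w hw => hCA hw
    refine le_trans ?_ (h1.trans h2)
    have h3 : ENNReal.ofReal c ≤ stdGaussian E C := by
      rw [ENNReal.ofReal_le_iff_le_toReal (measure_ne_top _ _)]; exact hcC
    rw [hk, mul_comm c, ENNReal.ofReal_mul (by positivity)]
    apply mul_le_mul' _ h3
    apply ENNReal.ofReal_le_ofReal
    apply Real.exp_le_exp.2
    rw [hss, neg_div, neg_div, neg_le_neg_iff, div_div, mul_comm (1 - ρ ^ 2) 2]
    apply div_le_div_of_nonneg_right _ (by positivity)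
    have hyn := norm_nonneg y
    have : 0 ≤ ρ * (R - ‖y‖) * (ρ * (R + ‖y‖) - 2 * α) := by
      apply mul_nonneg (mul_nonneg hρ.le (by linarith))
      nlinarith
    nlinarith
  have hmy : MeasurableSet {y : E | ‖y‖ ≤ R} := measurableSet_le measurable_norm measurable_const
  have h5 : ENNReal.ofReal k * stdGaussian E (B ∩ {y : E | ‖y‖ ≤ R}) ≤ jp ρ A B := by
    rw [jp_eq (by nlinarith) hA hB, ← hs, ← setLIntegral_const]
    refine (setLIntegral_mono' (hB.inter hmy) hcond).trans ?_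
    exact lintegral_mono_set inter_subset_left
  have h8 : jp ρ A B ≠ ⊤ := measure_ne_top _ _
  have h9 := ENNReal.toReal_mono h8 h5
  rw [ENNReal.toReal_mul, ENNReal.toReal_ofReal hk0] at h9
  exact h9

lemma inter_ge (B : Set E) (R : ℝ) :
    (stdGaussian E).real B - (stdGaussian E).real {y | R < ‖y‖}
      ≤ (stdGaussian E).real (B ∩ {y : E | ‖y‖ ≤ R}) := by
  have : B ⊆ (B ∩ {y : E | ‖y‖ ≤ R}) ∪ {y | R < ‖y‖} := by
    intro y hy
    by_cases h : ‖y‖ ≤ R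
    · left; exact ⟨hy, h⟩
    · right; exact not_le.1 h
  have h7 := (measureReal_mono (μ := stdGaussian E) this).trans (measureReal_union_le _ _)
  linarith


lemma exists_dir [Nontrivial E] (y : E) : ∃ θ : E, ‖θ‖ = 1 ∧ y = ‖y‖ • θ := by
  by_cases hy : y = 0
  · obtain ⟨x, hx⟩ := exists_ne (0 : E)
    refine ⟨‖x‖⁻¹ • x, ?_, ?_⟩
    · rw [norm_smul, norm_inv, norm_norm, inv_mul_cancel₀ (norm_ne_zero_iff.2 hx)]
    · simp [hy]
  · refine ⟨‖y‖⁻¹ • y, ?_, ?_⟩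
    · rw [norm_smul, norm_inv, norm_norm, inv_mul_cancel₀ (norm_ne_zero_iff.2 hy)]
    · rw [smul_smul, mul_inv_cancel₀ (norm_ne_zero_iff.2 hy), one_smul]

/-- uniformity over all symmetric sets of given measure -/
lemma unif_sym [Nontrivial E] (μ α : ℝ)
    (hg : (gaussianReal 0 1).real (Icc (-α) α) < μ) :
    ∃ M : ℝ, ∃ c : ℝ, 0 < c ∧ ∀ A : Set E, MeasurableSet A → -A = A →
      (stdGaussian E).real A = μ → ∀ y : E, ∃ C : Set E, MeasurableSet C ∧ C ⊆ A ∧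
      (∀ x ∈ C, ‖x‖ ≤ M ∧ α * ‖y‖ ≤ ⟪x, y⟫) ∧ c ≤ (stdGaussian E).real C := by
  set η := μ - (gaussianReal 0 1).real (Icc (-α) α) with hη
  have hη0 : 0 < η := by linarith
  obtain ⟨M, _, hM⟩ := exists_tail (E := E) (η / 4) (by linarith)
  refine ⟨M, η / 4, by linarith, ?_⟩
  intro A hA hsym hAμ y
  obtain ⟨θ, hθ, hy⟩ := exists_dir y
  have hm1 : MeasurableSet {x : E | α ≤ ⟪θ, x⟫} :=
    measurableSet_le measurable_const (measurable_inner_left' θ)
  have hm2 : MeasurableSet {x : E | ‖x‖ ≤ M} := measurableSet_le measurable_norm measurable_const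
  refine ⟨(A ∩ {x | α ≤ ⟪θ, x⟫}) ∩ {x | ‖x‖ ≤ M}, (hA.inter hm1).inter hm2, ?_, ?_, ?_⟩
  · exact fun x hx => hx.1.1
  · rintro x ⟨⟨_, hx⟩, hx2⟩
    refine ⟨hx2, ?_⟩
    have hx : α ≤ ⟪θ, x⟫ := hx
    have e : ⟪x, y⟫ = ‖y‖ * ⟪θ, x⟫ := by
      conv_lhs => rw [hy]
      rw [inner_smul_right, real_inner_comm]
    rw [e, mul_comm]
    exact mul_le_mul_of_nonneg_left hx (norm_nonneg _)
  · have h1 := symm_half θ hθ A hA hsym α
    have h2 := inter_ge (A ∩ {x : E | α ≤ ⟪θ, x⟫}) M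
    rw [hAμ] at h1
    linarith

/-- a bump of uniform Gaussian mass -/
lemma bump (β δ : ℝ) (hβ : 0 ≤ β) (hδ : 0 < δ) :
    ∃ c : ℝ, 0 < c ∧ ∀ θ : E, ‖θ‖ = 1 →
      c ≤ (stdGaussian E).real (Metric.closedBall (β • θ) δ) := by
  set v := (ENNReal.ofReal (cst E) * volume (Metric.closedBall (0 : E) δ)) with hv
  have hv0 : v ≠ 0 := by
    rw [hv]
    apply mul_ne_zero
    · simpa using cst_pos (E := E)
    · exact (Metric.measure_closedBall_pos _ _ hδ).ne'
  have hvt : v ≠ ⊤ := ENNReal.mul_ne_top ENNReal.ofReal_ne_top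
    (measure_closedBall_lt_top).ne
  refine ⟨rexp (-(β + δ) ^ 2 / 2) * v.toReal,
    mul_pos (Real.exp_pos _) (ENNReal.toReal_pos hv0 hvt), ?_⟩
  intro θ hθ
  have h := gauss_ge (Metric.closedBall (β • θ) δ) measurableSet_closedBall ((β + δ) ^ 2) (by
    intro x hx
    have h1 : ‖x - β • θ‖ ≤ δ := by simpa [dist_eq_norm] using hx
    have h2 : ‖x‖ ≤ β + δ := by
      calc ‖x‖ = ‖β • θ + (x - β • θ)‖ := by congr 1; abel
        _ ≤ ‖β • θ‖ + ‖x - β • θ‖ := norm_add_le _ _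
        _ ≤ β + δ := by
          rw [norm_smul, hθ, mul_one, Real.norm_eq_abs, abs_of_nonneg hβ]; linarith
    have := norm_nonneg x
    gcongr)
  rw [Measure.addHaar_closedBall_center, ← hv] at h
  have h3 := ENNReal.toReal_mono (measure_ne_top _ _) h
  rw [ENNReal.toReal_mul, ENNReal.toReal_ofReal (Real.exp_pos _).le] at h3
  exact h3

lemma bump_mem {β δ : ℝ} (hβ : 0 ≤ β) {θ x : E} (hθ : ‖θ‖ = 1)
    (hx : x ∈ Metric.closedBall (β • θ) δ) :
    ‖x‖ ≤ β + δ ∧ β - δ ≤ ‖x‖ ∧ β - δ ≤ ⟪x, θ⟫ := by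
  have h1 : ‖x - β • θ‖ ≤ δ := by simpa [dist_eq_norm] using hx
  have hn : ‖β • θ‖ = β := by rw [norm_smul, hθ, mul_one, Real.norm_eq_abs, abs_of_nonneg hβ]
  have h2 : β - δ ≤ ⟪x, θ⟫ := by
    have e : ⟪x, θ⟫ = β + ⟪x - β • θ, θ⟫ := by
      rw [inner_sub_left, real_inner_smul_left, real_inner_self_eq_norm_sq, hθ]; ring
    have h3 := abs_real_inner_le_norm (x - β • θ) θ
    rw [hθ, mul_one] at h3
    have h4 := (abs_le.1 (h3.trans h1)).1
    linarith
  refine ⟨?_, ?_, h2⟩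
  · have := norm_add_le (β • θ) (x - β • θ)
    rw [add_sub_cancel, hn] at this
    linarith
  · have h3 := real_inner_le_norm x θ
    rw [hθ, mul_one] at h3
    linarith

lemma unif_ball [Nontrivial E] (r α : ℝ) (hα : 0 ≤ α) (hr : α < r) :
    ∃ c : ℝ, 0 < c ∧ ∀ y : E, ∃ C : Set E, MeasurableSet C ∧ C ⊆ Metric.closedBall 0 r ∧
      (∀ x ∈ C, ‖x‖ ≤ r ∧ α * ‖y‖ ≤ ⟪x, y⟫) ∧ c ≤ (stdGaussian E).real C := by
  obtain ⟨c, hc, H⟩ := bump (E := E) ((r + α) / 2) ((r - α) / 2) (by linarith) (by linarith)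
  refine ⟨c, hc, fun y => ?_⟩
  obtain ⟨θ, hθ, hy⟩ := exists_dir y
  refine ⟨_, measurableSet_closedBall, ?_, ?_, H θ hθ⟩
  · intro x hx
    have := (bump_mem (by linarith) hθ hx).1
    rw [mem_closedBall_zero_iff]; linarith
  · intro x hx
    obtain ⟨h1, _, h3⟩ := bump_mem (by linarith) hθ hx
    refine ⟨by linarith, ?_⟩
    have e : ⟪x, y⟫ = ‖y‖ * ⟪x, θ⟫ := by
      conv_lhs => rw [hy]
      rw [inner_smul_right]
    rw [e, mul_comm]
    exact mul_le_mul_of_nonneg_left (by linarith) (norm_nonneg _)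

lemma unif_coball [Nontrivial E] (r : ℝ) (hr : 0 ≤ r) :
    ∃ c : ℝ, 0 < c ∧ ∀ y : E, ∃ C : Set E, MeasurableSet C ∧ C ⊆ (Metric.closedBall 0 r)ᶜ ∧
      (∀ x ∈ C, ‖x‖ ≤ r + 3 ∧ 0 * ‖y‖ ≤ ⟪x, y⟫) ∧ c ≤ (stdGaussian E).real C := by
  obtain ⟨c, hc, H⟩ := bump (E := E) (r + 2) 1 (by linarith) (by linarith)
  refine ⟨c, hc, fun y => ?_⟩
  obtain ⟨θ, hθ, hy⟩ := exists_dir y
  refine ⟨_, measurableSet_closedBall, ?_, ?_, H θ hθ⟩
  · intro x hx
    have := (bump_mem (by linarith) hθ hx).2.1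
    rw [mem_compl_iff, mem_closedBall_zero_iff]; linarith
  · intro x hx
    obtain ⟨h1, _, h3⟩ := bump_mem (by linarith) hθ hx
    refine ⟨by linarith, ?_⟩
    have e : ⟪x, y⟫ = ‖y‖ * ⟪x, θ⟫ := by
      conv_lhs => rw [hy]
      rw [inner_smul_right]
    rw [e, zero_mul]
    exact mul_nonneg (norm_nonneg _) (by linarith)


/-- upper bound given by a pair of slabs -/
lemma slab_ub {ρ : ℝ} (hρ : 0 < ρ) (hρ1 : ρ < 1) {a b : ℝ} (hab : a ≤ ρ * b)
    (θ : E) (hθ : ‖θ‖ = 1) :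
    (jp ρ {x : E | ⟪θ, x⟫ ∈ Icc (-a) a} {x : E | ⟪θ, x⟫ ∈ {t : ℝ | b ≤ |t|}}).toReal
      ≤ rexp (-(ρ * b - a) ^ 2 / (2 * (1 - ρ ^ 2))) * (gaussianReal 0 1).real {t | b ≤ |t|} := by
  have hs2 : 0 < 1 - ρ ^ 2 := by nlinarith
  have hS : MeasurableSet {t : ℝ | b ≤ |t|} := measurableSet_le measurable_const (by fun_prop)
  have hA : MeasurableSet {x : E | ⟪θ, x⟫ ∈ Icc (-a) a} := measurable_inner_left' θ measurableSet_Icc
  have hB : MeasurableSet {x : E | ⟪θ, x⟫ ∈ {t : ℝ | b ≤ |t|}} := measurable_inner_left' θ hS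
  set s := √(1 - ρ ^ 2) with hs
  have hs0 : 0 < s := Real.sqrt_pos.2 hs2
  have hss : s ^ 2 = 1 - ρ ^ 2 := Real.sq_sqrt hs2.le
  set u := (ρ * b - a) / s with hu
  have hu0 : 0 ≤ u := div_nonneg (by linarith) hs0.le
  have huu : rexp (-(ρ * b - a) ^ 2 / (2 * (1 - ρ ^ 2))) = rexp (-u ^ 2 / 2) := by
    congr 1
    rw [hu, div_pow, hss]
    field_simp
  have key : ∀ y ∈ {x : E | ⟪θ, x⟫ ∈ {t : ℝ | b ≤ |t|}},
      stdGaussian E {w | ρ • y + s • w ∈ {x : E | ⟪θ, x⟫ ∈ Icc (-a) a}}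
        ≤ ENNReal.ofReal (rexp (-u ^ 2 / 2)) := by
    intro y hy
    have hy : b ≤ |⟪θ, y⟫| := hy
    rw [← ofReal_measureReal (by exact measure_ne_top _ _)]
    apply ENNReal.ofReal_le_ofReal
    rcases le_abs.1 hy with h | h
    · have hsub : {w : E | ρ • y + s • w ∈ {x : E | ⟪θ, x⟫ ∈ Icc (-a) a}}
          ⊆ {w : E | ⟪θ, w⟫ ∈ {t : ℝ | t ≤ -u}} := by
        intro w hw
        have hw2 : ⟪θ, ρ • y + s • w⟫ ≤ a := hw.2
        rw [inner_add_right, inner_smul_right, inner_smul_right] at hw2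
        change ⟪θ, w⟫ ≤ -u
        rw [hu, le_neg, div_le_iff₀ hs0]
        nlinarith
      refine (measureReal_mono hsub).trans ?_
      rw [slab_real θ hθ {t : ℝ | t ≤ -u} (measurableSet_le measurable_id measurable_const)]
      exact g1_lower u hu0
    · have hsub : {w : E | ρ • y + s • w ∈ {x : E | ⟪θ, x⟫ ∈ Icc (-a) a}}
          ⊆ {w : E | ⟪θ, w⟫ ∈ {t : ℝ | u ≤ t}} := by
        intro w hw
        have hw2 : -a ≤ ⟪θ, ρ • y + s • w⟫ := hw.1
        rw [inner_add_right, inner_smul_right, inner_smul_right] at hw2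
        change u ≤ ⟪θ, w⟫
        rw [hu, div_le_iff₀ hs0]
        nlinarith
      refine (measureReal_mono hsub).trans ?_
      rw [slab_real θ hθ {t : ℝ | u ≤ t} (measurableSet_le measurable_const measurable_id)]
      exact g1_upper u hu0
  rw [jp_eq (by nlinarith) hA hB, ← hs, huu]
  have h1 := setLIntegral_mono' (μ := stdGaussian E) hB key
  rw [setLIntegral_const] at h1
  have h2 := ENNReal.toReal_mono (ENNReal.mul_ne_top ENNReal.ofReal_ne_top (measure_ne_top _ _)) h1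
  rw [ENNReal.toReal_mul, ENNReal.toReal_ofReal (Real.exp_pos _).le] at h2
  refine h2.trans (le_of_eq ?_)
  rw [← slab_real θ hθ _ hS]
  rfl

lemma tail_eventually (ε : ℝ) (hε : 0 < ε) :
    ∀ᶠ L : ℝ in atTop, (stdGaussian E).real {x | L + ε < ‖x‖} ≤ rexp (-L ^ 2 / 2) / 2 := by
  set d : ℝ := (Module.finrank ℝ E : ℝ) with hd
  -- `(L+ε)^d * exp (1/2) * exp (-(L+ε)^2/2) ≤ exp (-L^2/2)/2`
  have ht : Tendsto (fun x : ℝ => x ^ d * rexp (-ε * x)) atTop (𝓝 0) :=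
    tendsto_rpow_mul_exp_neg_mul_atTop_nhds_zero d ε hε
  have ht2 : Tendsto (fun L : ℝ => (L + ε) ^ d * rexp (-ε * (L + ε))) atTop (𝓝 0) :=
    ht.comp (tendsto_atTop_add_const_right _ _ tendsto_id)
  have hpos : (0 : ℝ) < rexp (-(1 / 2) - ε ^ 2 / 2) / 2 := by positivity
  filter_upwards [ht2.eventually_le_const hpos, eventually_ge_atTop 1] with L hL hL1
  set R := L + ε with hR
  have hR1 : 1 ≤ R := by linarith
  have h := tail_le (E := E) (R := R) (κ := (R ^ 2)⁻¹) (by positivity)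
    (inv_le_one_of_one_le₀ (by nlinarith)) (by linarith)
  refine ENNReal.toReal_le_of_le_ofReal (by positivity) (h.trans (ENNReal.ofReal_le_ofReal ?_))
  have e1 : ((R ^ 2)⁻¹ : ℝ) ^ (-((Module.finrank ℝ E : ℝ) / 2)) = R ^ d := by
    rw [Real.inv_rpow (by positivity), ← Real.rpow_neg (by positivity), neg_neg,
      ← Real.rpow_natCast R 2, ← Real.rpow_mul (by linarith)]
    congr 1
    push_cast
    ring
  rw [e1]
  have e2 : rexp (-(1 - (R ^ 2)⁻¹) * R ^ 2 / 2) = rexp (1 / 2) * rexp (-R ^ 2 / 2) := by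
    rw [← Real.exp_add]
    congr 1
    field_simp
    ring
  rw [e2]
  have e3 : rexp (-L ^ 2 / 2) = rexp (-R ^ 2 / 2) * rexp (ε * R) * rexp (-(ε ^ 2 / 2)) := by
    rw [← Real.exp_add, ← Real.exp_add]
    congr 1
    rw [hR]; ring
  rw [e3]
  have e4 : rexp (-(1 / 2) - ε ^ 2 / 2) = (rexp (1 / 2))⁻¹ * rexp (-(ε ^ 2 / 2)) := by
    rw [← Real.exp_neg, ← Real.exp_add]; ring_nf
  rw [e4] at hL
  have e5 : rexp (-ε * R) = (rexp (ε * R))⁻¹ := by rw [← Real.exp_neg]; ring_nf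
  rw [e5] at hL
  have p1 := Real.exp_pos (1 / 2)
  have p2 := Real.exp_pos (ε * R)
  have h3 : R ^ d * rexp (1 / 2) ≤ rexp (ε * R) * rexp (-(ε ^ 2 / 2)) / 2 := by
    have h4 := mul_le_mul_of_nonneg_right hL (mul_pos p1 p2).le
    calc R ^ d * rexp (1 / 2) = R ^ d * (rexp (ε * R))⁻¹ * (rexp (1 / 2) * rexp (ε * R)) := by
          field_simp
      _ ≤ _ := h4
      _ = _ := by field_simp
  calc R ^ d * (rexp (1 / 2) * rexp (-R ^ 2 / 2)) = R ^ d * rexp (1 / 2) * rexp (-R ^ 2 / 2) := by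
        ring
    _ ≤ rexp (ε * R) * rexp (-(ε ^ 2 / 2)) / 2 * rexp (-R ^ 2 / 2) :=
        mul_le_mul_of_nonneg_right h3 (Real.exp_pos _).le
    _ = _ := by ring

end General


section Final

variable {n : ℕ}

lemma pairProb_eq (ρ : ℝ) (A B : Set (EuclideanSpace ℝ (Fin n))) :
    pairProb ρ A B = (jp ρ A B).toReal := rfl

lemma pairProb_nonneg (ρ : ℝ) (A B : Set (EuclideanSpace ℝ (Fin n))) : 0 ≤ pairProb ρ A B :=
  measureReal_nonneg

lemma bdd (ρ μ ν : ℝ) : BddBelow {t | ∃ A B : Set (EuclideanSpace ℝ (Fin n)), MeasurableSet A ∧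
    MeasurableSet B ∧ -A = A ∧ (gaussian n).real A = μ ∧ (gaussian n).real B = ν ∧
    pairProb ρ A B = t} := by
  refine ⟨0, ?_⟩
  rintro t ⟨A, B, _, _, _, _, _, rfl⟩
  exact pairProb_nonneg _ _ _

lemma exists_unit (hn : 1 ≤ n) : ∃ θ : EuclideanSpace ℝ (Fin n), ‖θ‖ = 1 :=
  ⟨EuclideanSpace.single ⟨0, hn⟩ 1, by simp⟩

lemma slab_mem (hn : 1 ≤ n) {ρ μ ν a : ℝ} (ha : (gaussianReal 0 1).real (Icc (-a) a) = μ)
    {b : ℝ} (hb : (gaussianReal 0 1).real {t | b ≤ |t|} = ν)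
    (hρ : 0 < ρ) (hρ1 : ρ < 1) (hab : a ≤ ρ * b) :
    minProb n ρ μ ν ≤ rexp (-(ρ * b - a) ^ 2 / (2 * (1 - ρ ^ 2))) * ν := by
  obtain ⟨θ, hθ⟩ := exists_unit hn
  have hS : MeasurableSet {t : ℝ | b ≤ |t|} := measurableSet_le measurable_const (by fun_prop)
  have h := slab_ub hρ hρ1 hab θ hθ
  rw [hb] at h
  refine le_trans (csInf_le (bdd _ _ _) ?_) h
  refine ⟨_, _, measurable_inner_left' θ measurableSet_Icc, measurable_inner_left' θ hS, ?_, ?_,
    ?_, rfl⟩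
  · ext x
    simp only [Set.mem_neg, mem_preimage, inner_neg_right, mem_Icc]
    constructor
    · rintro ⟨h1, h2⟩; exact ⟨by linarith, by linarith⟩
    · rintro ⟨h1, h2⟩; exact ⟨by linarith, by linarith⟩
  · rw [← ha]; exact slab_real θ hθ _ measurableSet_Icc
  · rw [← hb]; exact slab_real θ hθ _ hS

lemma nonempty_set (hn : 1 ≤ n) {ρ μ ν : ℝ} (hμ : 0 < μ) (hμ1 : μ < 1) (hν : 0 < ν)
    (hν1 : ν < 1) : {t | ∃ A B : Set (EuclideanSpace ℝ (Fin n)), MeasurableSet A ∧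
    MeasurableSet B ∧ -A = A ∧ (gaussian n).real A = μ ∧ (gaussian n).real B = ν ∧
    pairProb ρ A B = t}.Nonempty := by
  obtain ⟨θ, hθ⟩ := exists_unit hn
  obtain ⟨a, _, ha⟩ := g1_quantile μ hμ hμ1
  obtain ⟨b, _, hb⟩ := g1_quantile ν hν hν1
  refine ⟨_, _, _, measurable_inner_left' θ (measurableSet_Icc (a := -a) (b := a)),
    measurable_inner_left' θ (measurableSet_Icc (a := -b) (b := b)), ?_, ?_, ?_, rfl⟩
  · ext x
    simp only [Set.mem_neg, mem_preimage, inner_neg_right, mem_Icc]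
    constructor
    · rintro ⟨h1, h2⟩; exact ⟨by linarith, by linarith⟩
    · rintro ⟨h1, h2⟩; exact ⟨by linarith, by linarith⟩
  · rw [← ha]; exact slab_real θ hθ _ measurableSet_Icc
  · rw [← hb]; exact slab_real θ hθ _ measurableSet_Icc

lemma nontriv (hn : 1 ≤ n) : Nontrivial (EuclideanSpace ℝ (Fin n)) := by
  obtain ⟨θ, hθ⟩ := exists_unit hn
  exact ⟨θ, 0, by intro h; rw [h, norm_zero] at hθ; exact zero_ne_one hθ⟩

/-- common form of the lower bounds -/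
noncomputable def lowB (ρ α ε L : ℝ) : ℝ :=
  rexp (-L ^ 2 / 2) * rexp (-(ρ ^ 2 * (L + ε) ^ 2 - 2 * ρ * α * (L + ε)) / (2 * (1 - ρ ^ 2)))

lemma core_lower (ρ : ℝ) (hρ : 0 < ρ) (hρ1 : ρ < 1) (α ε M c : ℝ)
    (hα : 0 ≤ α) (hε : 0 < ε) (hc : 0 < c) :
    ∀ᶠ L : ℝ in atTop, ∀ A : Set (EuclideanSpace ℝ (Fin n)), MeasurableSet A →
      (∀ y, ∃ C : Set (EuclideanSpace ℝ (Fin n)), MeasurableSet C ∧ C ⊆ A ∧
      (∀ x ∈ C, ‖x‖ ≤ M ∧ α * ‖y‖ ≤ ⟪x, y⟫) ∧ c ≤ (gaussian n).real C) →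
      ∀ B : Set (EuclideanSpace ℝ (Fin n)), MeasurableSet B →
      (gaussian n).real B = rexp (-L ^ 2 / 2) →
      (c * rexp (-M ^ 2 / (2 * (1 - ρ ^ 2))) / 2) * lowB ρ α ε L ≤ pairProb ρ A B := by
  filter_upwards [tail_eventually (E := EuclideanSpace ℝ (Fin n)) ε hε,
    eventually_ge_atTop (2 * α / ρ)] with L hL hLα A hA H B hB hBν
  have hR : 2 * α ≤ ρ * (L + ε) := by
    rw [div_le_iff₀ hρ] at hLα
    nlinarith
  have h1 := jp_ge hρ hρ1 hA hB hα hR hc.le H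
  have h2 := inter_ge B (L + ε)
  have h3 : rexp (-L ^ 2 / 2) / 2 ≤ (stdGaussian (EuclideanSpace ℝ (Fin n))).real
      (B ∩ {y | ‖y‖ ≤ L + ε}) := by
    have : (stdGaussian (EuclideanSpace ℝ (Fin n))).real B = rexp (-L ^ 2 / 2) := hBν
    linarith
  rw [pairProb_eq]
  refine le_trans ?_ h1
  have e : rexp (-(M ^ 2 + ρ ^ 2 * (L + ε) ^ 2 - 2 * ρ * α * (L + ε)) / (2 * (1 - ρ ^ 2)))
      = rexp (-M ^ 2 / (2 * (1 - ρ ^ 2))) *
        rexp (-(ρ ^ 2 * (L + ε) ^ 2 - 2 * ρ * α * (L + ε)) / (2 * (1 - ρ ^ 2))) := by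
    rw [← Real.exp_add]; congr 1; ring
  rw [e]
  unfold lowB
  have p1 := Real.exp_pos (-M ^ 2 / (2 * (1 - ρ ^ 2)))
  have p2 := Real.exp_pos (-(ρ ^ 2 * (L + ε) ^ 2 - 2 * ρ * α * (L + ε)) / (2 * (1 - ρ ^ 2)))
  calc _ = c * (rexp (-M ^ 2 / (2 * (1 - ρ ^ 2))) *
        rexp (-(ρ ^ 2 * (L + ε) ^ 2 - 2 * ρ * α * (L + ε)) / (2 * (1 - ρ ^ 2)))) *
          (rexp (-L ^ 2 / 2) / 2) := by ring
    _ ≤ _ := mul_le_mul_of_nonneg_left h3 (by positivity)

lemma exp_lt_one {L : ℝ} (hL : 0 < L) : rexp (-L ^ 2 / 2) < 1 := by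
  rw [Real.exp_lt_one_iff]
  have : 0 < L ^ 2 := by positivity
  linarith

lemma min_lower (hn : 1 ≤ n) (ρ : ℝ) (hρ : 0 < ρ) (hρ1 : ρ < 1) (μ a : ℝ) (hμ : 0 < μ)
    (hμ1 : μ < 1) (ha : (gaussianReal 0 1).real (Icc (-a) a) = μ) (α ε : ℝ) (hα : 0 ≤ α)
    (hαa : α < a) (hε : 0 < ε) :
    ∃ K : ℝ, 0 < K ∧ ∀ᶠ L : ℝ in atTop, K * lowB ρ α ε L ≤ minProb n ρ μ (rexp (-L ^ 2 / 2)) := by
  have := nontriv hn
  obtain ⟨M, c, hc, H⟩ := unif_sym (E := EuclideanSpace ℝ (Fin n)) μ α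
    (by rw [← ha]; exact g1_strict hα hαa)
  refine ⟨c * rexp (-M ^ 2 / (2 * (1 - ρ ^ 2))) / 2, by positivity, ?_⟩
  filter_upwards [core_lower (n := n) ρ hρ hρ1 α ε M c hα hε hc, eventually_gt_atTop 0]
    with L hL hL0
  apply le_csInf (nonempty_set hn hμ hμ1 (Real.exp_pos _) (exp_lt_one hL0))
  rintro t ⟨A, B, hA, hB, hsym, hAμ, hBν, rfl⟩
  exact hL A hA (H A hA hsym hAμ) B hB hBν

lemma min_upper (hn : 1 ≤ n) (ρ : ℝ) (hρ : 0 < ρ) (hρ1 : ρ < 1) (μ a : ℝ)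
    (ha : (gaussianReal 0 1).real (Icc (-a) a) = μ) (ε : ℝ) (hε : 0 < ε) :
    ∀ᶠ L : ℝ in atTop, minProb n ρ μ (rexp (-L ^ 2 / 2))
      ≤ rexp (-(ρ * (L - ε) - a) ^ 2 / (2 * (1 - ρ ^ 2))) * rexp (-L ^ 2 / 2) := by
  filter_upwards [quantile_ge ε hε, eventually_gt_atTop 0, eventually_ge_atTop (a / ρ + ε)]
    with L hL hL0 hLa
  obtain ⟨b, hb0, hb⟩ := g1_quantile (1 - rexp (-L ^ 2 / 2)) (by linarith [exp_lt_one hL0])
    (by linarith [Real.exp_pos (-L ^ 2 / 2)])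
  have hb2 : (gaussianReal 0 1).real {t | b ≤ |t|} = rexp (-L ^ 2 / 2) := by
    rw [g1_compl, hb]; ring
  have h1 := hL b hb2
  have h2 : a ≤ ρ * (L - ε) := by
    have : a / ρ ≤ L - ε := by linarith
    rw [div_le_iff₀ hρ] at this; linarith
  have h3 : ρ * (L - ε) ≤ ρ * b := mul_le_mul_of_nonneg_left h1 hρ.le
  refine (slab_mem hn ha hb2 hρ hρ1 (h2.trans h3)).trans ?_
  apply mul_le_mul_of_nonneg_right _ (Real.exp_pos _).le
  apply Real.exp_le_exp.2
  have hD : 0 < 1 - ρ ^ 2 := by nlinarith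
  apply div_le_div_of_nonneg_right _ (by positivity)
  nlinarith

lemma ball_lower (hn : 1 ≤ n) (ρ : ℝ) (hρ : 0 < ρ) (hρ1 : ρ < 1) (r α ε : ℝ) (hα : 0 ≤ α)
    (hαr : α < r) (hε : 0 < ε) :
    ∃ K : ℝ, 0 < K ∧ ∀ᶠ L : ℝ in atTop, ∀ R : ℝ,
      (gaussian n).real (Metric.closedBall 0 R)ᶜ = rexp (-L ^ 2 / 2) →
      K * lowB ρ α ε L ≤ pairProb (n := n) ρ (Metric.closedBall 0 r) (Metric.closedBall 0 R)ᶜ := by
  have := nontriv hn
  obtain ⟨c, hc, H⟩ := unif_ball (E := EuclideanSpace ℝ (Fin n)) r α hα hαr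
  refine ⟨c * rexp (-r ^ 2 / (2 * (1 - ρ ^ 2))) / 2, by positivity, ?_⟩
  filter_upwards [core_lower (n := n) ρ hρ hρ1 α ε r c hα hε hc] with L hL R hR
  exact hL _ measurableSet_closedBall H _ measurableSet_closedBall.compl hR

lemma coball_lower (hn : 1 ≤ n) (ρ : ℝ) (hρ : 0 < ρ) (hρ1 : ρ < 1) (r : ℝ) (hr : 0 ≤ r) :
    ∃ K : ℝ, 0 < K ∧ ∀ᶠ L : ℝ in atTop, ∀ R : ℝ,
      (gaussian n).real (Metric.closedBall 0 R) = rexp (-L ^ 2 / 2) →
      K * rexp (-L ^ 2 / 2)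
        ≤ pairProb (n := n) ρ (Metric.closedBall 0 r)ᶜ (Metric.closedBall 0 R) := by
  have := nontriv hn
  obtain ⟨c, hc, H⟩ := unif_coball (E := EuclideanSpace ℝ (Fin n)) r hr
  obtain ⟨g, hg, Hg⟩ := bump (E := EuclideanSpace ℝ (Fin n)) 0 1 le_rfl one_pos
  obtain ⟨θ, hθ⟩ := exists_unit hn
  have hg1 := Hg θ hθ
  rw [zero_smul] at hg1
  have ht : Tendsto (fun L : ℝ => rexp (-L ^ 2 / 2)) atTop (𝓝 0) := by
    apply Real.tendsto_exp_atBot.comp
    have : Tendsto (fun M : ℝ => (-(1 / 2)) * M ^ 2) atTop atBot :=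
      (tendsto_pow_atTop (two_ne_zero)).const_mul_atTop_of_neg (by norm_num)
    refine this.congr fun M => by ring
  refine ⟨c * rexp (-((r + 3) ^ 2 + ρ ^ 2 * 1 ^ 2 - 2 * ρ * 0 * 1) / (2 * (1 - ρ ^ 2))),
    by positivity, ?_⟩
  filter_upwards [ht.eventually_lt_const hg] with L hL R hR
  have hR1 : R ≤ 1 := by
    by_contra hcon
    have h1 : Metric.closedBall (0 : EuclideanSpace ℝ (Fin n)) 1 ⊆ Metric.closedBall 0 R :=
      Metric.closedBall_subset_closedBall (not_le.1 hcon).le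
    have h2 := measureReal_mono (μ := gaussian n) h1
    rw [hR] at h2
    exact absurd (hg1.trans h2) (not_le.2 hL)
  have h1 := jp_ge hρ hρ1 (A := (Metric.closedBall (0 : EuclideanSpace ℝ (Fin n)) r)ᶜ)
    measurableSet_closedBall.compl (B := Metric.closedBall 0 R) measurableSet_closedBall
    (α := 0) (M := r + 3) (c := c) (R := 1) le_rfl (by linarith) hc.le H
  have h2 : Metric.closedBall (0 : EuclideanSpace ℝ (Fin n)) R ∩ {y | ‖y‖ ≤ 1}
      = Metric.closedBall 0 R := by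
    apply inter_eq_left.2
    intro x hx
    rw [mem_closedBall_zero_iff] at hx
    exact hx.trans hR1
  rw [h2] at h1
  rw [pairProb_eq]
  have h3 : (stdGaussian (EuclideanSpace ℝ (Fin n))).real (Metric.closedBall 0 R)
      = rexp (-L ^ 2 / 2) := hR
  rw [h3] at h1
  exact h1

lemma radius_gt (hn : 2 ≤ n) (μ a r : ℝ) (ha0 : 0 < a)
    (ha : (gaussianReal 0 1).real (Icc (-a) a) = μ)
    (hr : (gaussian n).real (Metric.closedBall 0 r) = μ) : a < r := by
  by_contra hcon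
  have hcon := not_lt.1 hcon
  set θ : EuclideanSpace ℝ (Fin n) := EuclideanSpace.single ⟨0, by omega⟩ 1 with hθd
  set θ' : EuclideanSpace ℝ (Fin n) := EuclideanSpace.single ⟨1, by omega⟩ 1 with hθd'
  have hθ : ‖θ‖ = 1 := by simp [hθd]
  have hθ' : ‖θ'‖ = 1 := by simp [hθd']
  have horth : ⟪θ, θ'⟫ = 0 := by
    rw [hθd, hθd', EuclideanSpace.inner_single_left]
    simp
  set δ := min (a / 2) (1 / 2) with hδ
  have hδ0 : 0 < δ := lt_min (by linarith) (by norm_num)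
  have hδa : δ ≤ a / 2 := min_le_left _ _
  have hδ1 : δ ≤ 1 / 2 := min_le_right _ _
  obtain ⟨c, hc, H⟩ := bump (E := EuclideanSpace ℝ (Fin n)) (a + 1) δ (by linarith) hδ0
  have h1 : Metric.closedBall 0 r ∪ Metric.closedBall ((a + 1) • θ') δ
      ⊆ {x : EuclideanSpace ℝ (Fin n) | ⟪θ, x⟫ ∈ Icc (-a) a} := by
    rintro x (hx | hx)
    · rw [mem_closedBall_zero_iff] at hx
      have h2 := abs_real_inner_le_norm θ x
      rw [hθ, one_mul] at h2
      exact abs_le.1 (h2.trans (hx.trans hcon))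
    · have h1 : ‖x - (a + 1) • θ'‖ ≤ δ := by simpa [dist_eq_norm] using hx
      have h2 := abs_real_inner_le_norm θ (x - (a + 1) • θ')
      rw [hθ, one_mul, inner_sub_right, inner_smul_right, horth, mul_zero, sub_zero] at h2
      exact abs_le.1 (h2.trans (h1.trans (by linarith)))
  have h2 : Disjoint (Metric.closedBall (0 : EuclideanSpace ℝ (Fin n)) r)
      (Metric.closedBall ((a + 1) • θ') δ) := by
    rw [Set.disjoint_left]
    intro x hx hx2
    rw [mem_closedBall_zero_iff] at hx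
    have := (bump_mem (by linarith) hθ' hx2).2.1
    linarith
  have h3 := measureReal_mono (μ := gaussian n) h1
  rw [measureReal_union h2 measurableSet_closedBall, hr] at h3
  have h4 : (gaussian n).real {x : EuclideanSpace ℝ (Fin n) | ⟪θ, x⟫ ∈ Icc (-a) a} = μ := by
    rw [← ha]; exact slab_real θ hθ _ measurableSet_Icc
  rw [h4] at h3
  have h5 := H θ' hθ'
  have h6 : c ≤ (gaussian n).real (Metric.closedBall ((a + 1) • θ') δ) := h5
  linarith

lemma exp_large (p q K : ℝ) (hp : 0 < p) : ∀ᶠ L : ℝ in atTop, K < rexp (p * L + q) := by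
  have ht : Tendsto (fun L : ℝ => rexp (p * L + q)) atTop atTop :=
    Real.tendsto_exp_atTop.comp (tendsto_atTop_add_const_right _ _
      (tendsto_id.const_mul_atTop hp))
  exact ht.eventually_gt_atTop K

end Final

section Asymp

variable {n : ℕ}

lemma limit_L (hn : 1 ≤ n) (ρ : ℝ) (hρ : 0 < ρ) (hρ1 : ρ < 1) (μ a : ℝ) (hμ : 0 < μ)
    (hμ1 : μ < 1) (ha0 : 0 < a) (ha : (gaussianReal 0 1).real (Icc (-a) a) = μ) :
    Tendsto (fun L : ℝ => (Real.log (minProb n ρ μ (rexp (-L ^ 2 / 2)))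
      + L ^ 2 / 2 / (1 - ρ ^ 2)) / L) atTop (𝓝 (ρ * a / (1 - ρ ^ 2))) := by
  have hD : 0 < 1 - ρ ^ 2 := by nlinarith
  set D := 1 - ρ ^ 2 with hDdef
  rw [tendsto_order]
  constructor
  · intro a' ha'
    rw [lt_div_iff₀ hD] at ha'
    -- choose the parameters
    set δ := min a ((ρ * a - a' * D) / (4 * ρ)) with hδ
    have hδ0 : 0 < δ := lt_min ha0 (by apply div_pos <;> linarith)
    have hδa : δ ≤ a := min_le_left _ _
    have hδ2 : δ * (4 * ρ) ≤ ρ * a - a' * D := by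
      rw [← le_div_iff₀ (by positivity)]; exact min_le_right _ _
    obtain ⟨K, hK, hlow⟩ := min_lower hn ρ hρ hρ1 μ a hμ hμ1 ha (a - δ) δ (by linarith)
      (by linarith) hδ0
    set c0 : ℝ := Real.log K + (-(ρ ^ 2 * δ ^ 2) + 2 * ρ * (a - δ) * δ) / (2 * D) with hc0
    have hlim : Tendsto (fun L : ℝ => c0 / L) atTop (𝓝 0) := tendsto_const_nhds.div_atTop tendsto_id
    have hgap : 0 < (ρ * (a - δ) - ρ ^ 2 * δ) / D - a' := by
      rw [sub_pos, lt_div_iff₀ hD]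
      nlinarith
    filter_upwards [hlow, eventually_gt_atTop 0,
      hlim.eventually (lt_mem_nhds (show -((ρ * (a - δ) - ρ ^ 2 * δ) / D - a') < 0 by linarith))]
      with L hL hL0 hL3
    have h1 := Real.log_le_log (by unfold lowB; positivity) hL
    rw [lowB, Real.log_mul hK.ne' (by positivity), Real.log_mul (Real.exp_pos _).ne'
      (Real.exp_pos _).ne', Real.log_exp, Real.log_exp] at h1
    rw [lt_div_iff₀ hL0]
    have h2 : -((ρ * (a - δ) - ρ ^ 2 * δ) / D - a') * L < c0 := by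
      have := (lt_div_iff₀ hL0).1 hL3
      exact this
    have h3 : Real.log K + (-L ^ 2 / 2 + -(ρ ^ 2 * (L + δ) ^ 2 - 2 * ρ * (a - δ) * (L + δ)) /
        (2 * (1 - ρ ^ 2))) + L ^ 2 / 2 / D = c0 + (ρ * (a - δ) - ρ ^ 2 * δ) / D * L := by
      rw [hc0, ← hDdef]
      have : ρ ^ 2 = 1 - D := by rw [hDdef]; ring
      field_simp
      linear_combination (-L ^ 2) * this
    nlinarith
  · intro b' hb'
    have hb' : ρ * a / D < b' := hb'
    rw [div_lt_iff₀ hD] at hb'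
    set ε := (b' * D - ρ * a) / (2 * ρ ^ 2) with hε
    have hε0 : 0 < ε := by apply div_pos <;> [linarith; positivity]
    have hε2 : ε * (2 * ρ ^ 2) = b' * D - ρ * a := by rw [hε]; field_simp
    obtain ⟨K, hK, hlow⟩ := min_lower hn ρ hρ hρ1 μ a hμ hμ1 ha 0 1 le_rfl ha0 one_pos
    filter_upwards [hlow, min_upper hn ρ hρ hρ1 μ a ha ε hε0, eventually_gt_atTop 0]
      with L hL1 hL2 hL0
    have hpos : 0 < minProb n ρ μ (rexp (-L ^ 2 / 2)) := by
      refine lt_of_lt_of_le ?_ hL1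
      unfold lowB; positivity
    have h1 := Real.log_le_log hpos hL2
    rw [Real.log_mul (Real.exp_pos _).ne' (Real.exp_pos _).ne', Real.log_exp, Real.log_exp] at h1
    rw [div_lt_iff₀ hL0]
    have h3 : -(ρ * (L - ε) - a) ^ 2 / (2 * (1 - ρ ^ 2)) + -L ^ 2 / 2 + L ^ 2 / 2 / D
        = (2 * ρ * (ρ * ε + a) * L - (ρ * ε + a) ^ 2) / (2 * D) := by
      rw [← hDdef]
      have : ρ ^ 2 = 1 - D := by rw [hDdef]; ring
      field_simp
      linear_combination (-L ^ 2) * this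
    have h4 : (2 * ρ * (ρ * ε + a) * L - (ρ * ε + a) ^ 2) / (2 * D) < b' * L := by
      rw [div_lt_iff₀ (by positivity)]
      have h5 : 0 < (ρ * ε + a) ^ 2 := by positivity
      have h6 : ρ * (ρ * ε + a) < b' * D := by nlinarith
      nlinarith
    linarith

lemma ball_bad_L (hn : 2 ≤ n) (ρ : ℝ) (hρ : 0 < ρ) (hρ1 : ρ < 1) (μ a : ℝ)
    (ha0 : 0 < a) (ha : (gaussianReal 0 1).real (Icc (-a) a) = μ) (r : ℝ)
    (hr : (gaussian n).real (Metric.closedBall 0 r) = μ) (K : ℝ) :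
    ∀ᶠ L : ℝ in atTop, ∀ R : ℝ,
      (gaussian n).real (Metric.closedBall 0 R)ᶜ = rexp (-L ^ 2 / 2) →
      K * minProb n ρ μ (rexp (-L ^ 2 / 2))
        < pairProb (n := n) ρ (Metric.closedBall 0 r) (Metric.closedBall 0 R)ᶜ := by
  have har := radius_gt hn μ a r ha0 ha hr
  have hD : 0 < 1 - ρ ^ 2 := by nlinarith
  set α := (a + r) / 2 with hα
  set ε := (r - a) / 8 with hε
  have hε0 : 0 < ε := by rw [hε]; linarith
  obtain ⟨K', hK', hlow⟩ := ball_lower (n := n) (by omega) ρ hρ hρ1 r α ε (by linarith)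
    (by linarith) hε0
  have hp : 0 < 2 * ρ * (α - a - 2 * ρ * ε) / (2 * (1 - ρ ^ 2)) := by
    apply div_pos _ (by positivity)
    apply mul_pos (by positivity)
    rw [hα, hε]; nlinarith
  filter_upwards [hlow, min_upper (n := n) (by omega) ρ hρ hρ1 μ a ha ε hε0,
    exp_large _ ((-(ρ ^ 2 * ε ^ 2) + 2 * ρ * α * ε + (ρ * ε + a) ^ 2) / (2 * (1 - ρ ^ 2)))
      (|K| / K') hp] with L h1 h2 h3 R hR
  have h4 := h1 R hR
  rw [div_lt_iff₀ hK'] at h3
  have hm0 : 0 ≤ minProb n ρ μ (rexp (-L ^ 2 / 2)) := by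
    apply Real.sInf_nonneg
    rintro t ⟨A, B, _, _, _, _, _, rfl⟩
    exact pairProb_nonneg _ _ _
  set U := rexp (-(ρ * (L - ε) - a) ^ 2 / (2 * (1 - ρ ^ 2))) * rexp (-L ^ 2 / 2) with hU
  have hUpos : 0 < U := by positivity
  have h5 : lowB ρ α ε L = U * rexp (2 * ρ * (α - a - 2 * ρ * ε) / (2 * (1 - ρ ^ 2)) * L +
      (-(ρ ^ 2 * ε ^ 2) + 2 * ρ * α * ε + (ρ * ε + a) ^ 2) / (2 * (1 - ρ ^ 2))) := by
    rw [lowB, hU, ← Real.exp_add, ← Real.exp_add, ← Real.exp_add]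
    congr 1
    field_simp
    ring
  calc K * minProb n ρ μ (rexp (-L ^ 2 / 2)) ≤ |K| * minProb n ρ μ (rexp (-L ^ 2 / 2)) :=
        mul_le_mul_of_nonneg_right (le_abs_self K) hm0
    _ ≤ |K| * U := mul_le_mul_of_nonneg_left h2 (abs_nonneg K)
    _ < (rexp (2 * ρ * (α - a - 2 * ρ * ε) / (2 * (1 - ρ ^ 2)) * L +
      (-(ρ ^ 2 * ε ^ 2) + 2 * ρ * α * ε + (ρ * ε + a) ^ 2) / (2 * (1 - ρ ^ 2))) * K') * U :=
        mul_lt_mul_of_pos_right h3 hUpos
    _ = K' * lowB ρ α ε L := by rw [h5]; ring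
    _ ≤ _ := h4

lemma coball_bad_L (hn : 1 ≤ n) (ρ : ℝ) (hρ : 0 < ρ) (hρ1 : ρ < 1) (μ a : ℝ)
    (ha : (gaussianReal 0 1).real (Icc (-a) a) = μ) (r : ℝ) (hr0 : 0 ≤ r) (K : ℝ) :
    ∀ᶠ L : ℝ in atTop, ∀ R : ℝ,
      (gaussian n).real (Metric.closedBall 0 R) = rexp (-L ^ 2 / 2) →
      K * minProb n ρ μ (rexp (-L ^ 2 / 2))
        < pairProb (n := n) ρ (Metric.closedBall 0 r)ᶜ (Metric.closedBall 0 R) := by
  have hD : 0 < 1 - ρ ^ 2 := by nlinarith
  obtain ⟨K', hK', hlow⟩ := coball_lower (n := n) hn ρ hρ hρ1 r hr0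
  have ht : Tendsto (fun L : ℝ => |K| * rexp (-(ρ * (L - 1) - a) ^ 2 / (2 * (1 - ρ ^ 2)))) atTop
      (𝓝 (|K| * 0)) := by
    apply Tendsto.const_mul
    apply Real.tendsto_exp_atBot.comp
    have h1 : Tendsto (fun L : ℝ => ρ * (L - 1) - a) atTop atTop :=
      tendsto_atTop_add_const_right _ _ ((tendsto_atTop_add_const_right _ _ tendsto_id).const_mul_atTop hρ)
    have h2 : Tendsto (fun L : ℝ => (-(1 / (2 * (1 - ρ ^ 2)))) * (ρ * (L - 1) - a) ^ 2)
        atTop atBot :=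
      ((tendsto_pow_atTop (two_ne_zero)).comp h1).const_mul_atTop_of_neg
        (by rw [neg_lt_zero]; positivity)
    refine h2.congr fun L => by ring
  rw [mul_zero] at ht
  filter_upwards [hlow, min_upper (n := n) hn ρ hρ hρ1 μ a ha 1 one_pos,
    ht.eventually_lt_const hK'] with L h1 h2 h3 R hR
  have h4 := h1 R hR
  have hm0 : 0 ≤ minProb n ρ μ (rexp (-L ^ 2 / 2)) := by
    apply Real.sInf_nonneg
    rintro t ⟨A, B, _, _, _, _, _, rfl⟩
    exact pairProb_nonneg _ _ _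
  calc K * minProb n ρ μ (rexp (-L ^ 2 / 2)) ≤ |K| * minProb n ρ μ (rexp (-L ^ 2 / 2)) :=
        mul_le_mul_of_nonneg_right (le_abs_self K) hm0
    _ ≤ |K| * (rexp (-(ρ * (L - 1) - a) ^ 2 / (2 * (1 - ρ ^ 2))) * rexp (-L ^ 2 / 2)) :=
        mul_le_mul_of_nonneg_left h2 (abs_nonneg K)
    _ = (|K| * rexp (-(ρ * (L - 1) - a) ^ 2 / (2 * (1 - ρ ^ 2)))) * rexp (-L ^ 2 / 2) := by ring
    _ < K' * rexp (-L ^ 2 / 2) := mul_lt_mul_of_pos_right h3 (Real.exp_pos _)
    _ ≤ _ := h4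

lemma tendsto_scale : Tendsto (fun ν : ℝ => √(2 * Real.log (1 / ν))) (𝓝[>] 0) atTop := by
  apply Real.tendsto_sqrt_atTop.comp
  apply Tendsto.const_mul_atTop (by norm_num)
  apply Real.tendsto_log_atTop.comp
  have h : Tendsto (fun ν : ℝ => ν⁻¹) (𝓝[>] 0) atTop := tendsto_inv_nhdsGT_zero
  refine h.congr fun ν => (one_div ν).symm

lemma scale_eq : ∀ᶠ ν : ℝ in 𝓝[>] 0, rexp (-√(2 * Real.log (1 / ν)) ^ 2 / 2) = ν ∧
    √(2 * Real.log (1 / ν)) ^ 2 / 2 = Real.log (1 / ν) := by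
  have h1 : Ioo (0 : ℝ) 1 ∈ 𝓝[>] (0 : ℝ) := Ioo_mem_nhdsGT one_pos
  filter_upwards [h1] with ν hν
  have h2 : 0 ≤ Real.log (1 / ν) := by
    apply Real.log_nonneg
    rw [le_div_iff₀ hν.1]; linarith [hν.2]
  have h3 : √(2 * Real.log (1 / ν)) ^ 2 = 2 * Real.log (1 / ν) := Real.sq_sqrt (by linarith)
  refine ⟨?_, by rw [h3]; ring⟩
  rw [h3, show -(2 * Real.log (1 / ν)) / 2 = -Real.log (1 / ν) by ring, one_div, Real.log_inv,
    neg_neg, Real.exp_log hν.1]

end Asymp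

end Pool.Agent.H.MP_eff680_pr.helper91
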